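import Pool.Agent.Lib.MP_ea42c6_pr.A3
import Pool.Agent.Lib.MP_ea42c6_pr.S2

/-!
# MP_ea42c6_pr — the giant of an irrigation graph is monotone in the radius up to a constant

For every admissible `ξ` with `P(ξ ≥ 2) > 0`:
(1) there is `K` such that a giant whp for `r` gives a giant whp for every `r'` with
`r' n ≥ K * r n` eventually;
(2) for every `ε` there is `s` such that the largest component has at least `(1-ε) n` vertices
whp as soon as `r n ≥ s/√n` eventually; so the monotonicity asked for in Q1 holds for all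
pairs `r ≤ r'` with `r' n ≥ s/√n`;
(3) there is no giant whp for `r` if `r n ≤ (1/8)/√n` for infinitely many `n`.
-/

namespace Pool.Agent.Results.MP_ea42c6_pr.ApproximateMonotonicity

open MeasureTheory Filter EA42

theorem result (ξ : PMF ℕ) (hξ : Admissible ξ) (h2 : ∃ k ∈ ξ.support, 2 ≤ k) :
    (∃ K : ℝ, 0 < K ∧ ∀ r r' : ℕ → ℝ, (∀ᶠ n : ℕ in atTop, K * r n ≤ r' n) →
      GiantWhp ξ r → GiantWhp ξ r') ∧
    (∀ ε : ℝ, 0 < ε → ε < 1 → ∃ s : ℝ, 0 < s ∧ ∀ r : ℕ → ℝ,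
      (∀ᶠ n : ℕ in atTop, s / Real.sqrt n ≤ r n) →
      Tendsto (fun n => probGiant ξ n (r n) (1 - ε)) atTop (nhds 1)) ∧
    (∀ r : ℕ → ℝ, (∃ᶠ n : ℕ in atTop, r n ≤ (1 / 8) / Real.sqrt n) → ¬ GiantWhp ξ r) := by
  refine ⟨?_, fun ε hε hε1 => supercritical ξ hξ h2 hε hε1, fun r hr => subcritical ξ r hr⟩
  obtain ⟨s, hs, hsup⟩ := supercritical ξ hξ h2 (ε := 1 / 2) (by norm_num) (by norm_num)
  refine ⟨8 * s, by positivity, fun r r' hrr hG => ⟨1 / 2, by norm_num, ?_⟩⟩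
  have h1 : ∀ᶠ n : ℕ in atTop, ¬ (r n ≤ (1 / 8) / Real.sqrt n) := by
    by_contra hcon
    exact subcritical ξ r (by simpa [Filter.Frequently] using hcon) hG
  have h3 := hsup r' (by
    filter_upwards [h1, hrr] with n hn hn'
    refine le_trans ?_ hn'
    have : (1 / 8) / Real.sqrt n ≤ r n := (not_le.1 hn).le
    calc s / Real.sqrt n = 8 * s * ((1 / 8) / Real.sqrt n) := by ring
      _ ≤ 8 * s * r n := by gcongr)
  have h4 : (1 : ℝ) - 1 / 2 = 1 / 2 := by norm_num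
  rwa [h4] at h3

end Pool.Agent.Results.MP_ea42c6_pr.ApproximateMonotonicity
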