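import Pool.Agent.Lib.MP_ea42c6_pr.Three.U33

/-!
# MP_ea42c6_pr — `ξ = 1`: a giant never exists whp
-/

namespace Pool.Agent.Results.MP_ea42c6_pr.OnePickNeverWhp

open MeasureTheory Filter EA42

theorem never (r : ℕ → ℝ) : ¬ GiantWhp (PMF.pure 1) r := by
  rintro ⟨c, hc, hlim⟩
  obtain ⟨δ, hδ, n₀, hn⟩ := never_uniform hc
  have h1 : ∀ᶠ n : ℕ in atTop, probGiant (PMF.pure 1) n (r n) c ≤ ENNReal.ofReal (1 - δ) := by
    filter_upwards [eventually_ge_atTop n₀] with n hn'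
    exact hn n hn' (r n)
  have h2 := le_of_tendsto hlim h1
  have h3 : ENNReal.ofReal (1 - δ) < 1 := by
    rw [← ENNReal.ofReal_one]
    exact (ENNReal.ofReal_lt_ofReal_iff one_pos).2 (by linarith)
  exact absurd h2 (not_le.2 h3)

theorem result :
    (∀ c : ℝ, 0 < c → ∃ δ : ℝ, 0 < δ ∧ ∃ n₀ : ℕ, ∀ n : ℕ, n₀ ≤ n → ∀ r : ℝ,
      probGiant (PMF.pure 1) n r c ≤ ENNReal.ofReal (1 - δ)) ∧
    (∀ r : ℕ → ℝ, ¬ GiantWhp (PMF.pure 1) r) ∧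
    (∀ r r' : ℕ → ℝ, (∀ n, r n ≤ r' n) → GiantWhp (PMF.pure 1) r →
      GiantWhp (PMF.pure 1) r') :=
  ⟨fun _ hc => never_uniform hc, never, fun r _ _ hG => absurd hG (never r)⟩

end Pool.Agent.Results.MP_ea42c6_pr.OnePickNeverWhp
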