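import Pool.Agent.Lib.MP_ea42c6_pr.Four.W10
import Pool.Agent.Lib.MP_ea42c6_pr.Three.U33

/-!
# MP_ea42c6_pr — `ξ = 1`: the order of the threshold
-/

namespace Pool.Agent.Results.MP_ea42c6_pr.OnePickThreshold

open MeasureTheory Filter EA42
open scoped ENNReal

/-- A component of linear size exists in the sense of tightness: for every `η > 0` there is
`c > 0` such that `P(C₁ ≥ c n) ≥ 1 - η` for all large `n`. -/
def LinearComponent (ξ : PMF ℕ) (r : ℕ → ℝ) : Prop :=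
  ∀ η : ℝ, 0 < η → ∃ c : ℝ, 0 < c ∧
    ∀ᶠ n : ℕ in atTop, ENNReal.ofReal (1 - η) ≤ probGiant ξ n (r n) c

theorem no_giant (r : ℕ → ℝ) (hr0 : ∀ n, 0 ≤ r n)
    (hr : Tendsto (fun n : ℕ => (n : ℝ) ^ ((1 : ℝ) / 4) * r n / Real.sqrt (Real.log n)) atTop
      (nhds 0)) (ε : ℝ) (hε : 0 < ε) :
    Tendsto (fun n => probGiant (PMF.pure 1) n (r n) ε) atTop (nhds 0) := by
  refine two_pick r hr0 ?_ hε
  have h4 : Tendsto (fun n : ℕ => ((n : ℝ) ^ ((1 : ℝ) / 4) * r n / Real.sqrt (Real.log n)) ^ 4)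
      atTop (nhds 0) := by
    have := hr.pow 4
    simpa using this
  refine h4.congr fun n => ?_
  have hl : 0 ≤ Real.log (n : ℝ) := Real.log_natCast_nonneg n
  rw [div_pow, mul_pow, ← Real.rpow_natCast, ← Real.rpow_mul (Nat.cast_nonneg n)]
  have h2 : Real.sqrt (Real.log n) ^ 4 = Real.log n ^ 2 := by
    rw [show (4 : ℕ) = 2 * 2 from rfl, pow_mul, Real.sq_sqrt hl]
  rw [h2]
  norm_num

/-- The radius in units of the threshold. -/
theorem scale_iff {n : ℕ} (hn : 3 ≤ n) (a r : ℝ) :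
    a * (n : ℝ) ^ (-(1 : ℝ) / 4) * Real.sqrt (Real.log n) ≤ r ↔
      a ≤ (n : ℝ) ^ ((1 : ℝ) / 4) * r / Real.sqrt (Real.log n) := by
  have hn' : (3 : ℝ) ≤ n := by exact_mod_cast hn
  have h0 : (0 : ℝ) < n := by linarith
  have hl : 0 < Real.log (n : ℝ) := Real.log_pos (by linarith)
  have hs : 0 < Real.sqrt (Real.log n) := Real.sqrt_pos.2 hl
  have hp : 0 < (n : ℝ) ^ ((1 : ℝ) / 4) := Real.rpow_pos_of_pos h0 _
  have he : (n : ℝ) ^ (-(1 : ℝ) / 4) = ((n : ℝ) ^ ((1 : ℝ) / 4))⁻¹ := by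
    rw [← Real.rpow_neg h0.le]
    norm_num
  rw [he, le_div_iff₀ hs, mul_assoc, inv_mul_eq_div, mul_div_assoc', div_le_iff₀ hp, mul_comm r]

theorem linear_iff (r : ℕ → ℝ) : LinearComponent (PMF.pure 1) r ↔
    ∃ a : ℝ, 0 < a ∧ ∀ᶠ n : ℕ in atTop,
      a ≤ (n : ℝ) ^ ((1 : ℝ) / 4) * r n / Real.sqrt (Real.log n) := by
  constructor
  · intro h
    obtain ⟨c, hc, hev⟩ := h (1 / 4) (by norm_num)
    obtain ⟨a, ha, n₀, hn⟩ := small_uniform hc
    refine ⟨a, ha, ?_⟩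
    filter_upwards [hev, eventually_ge_atTop (max n₀ 3)] with n h1 h2
    rw [← scale_iff (le_trans (le_max_right _ _) h2)]
    by_contra hcon
    have h3 := hn n (le_trans (le_max_left _ _) h2) (r n) (not_le.1 hcon)
    have h4 := h1.trans h3
    rw [ENNReal.ofReal_le_ofReal_iff (by norm_num)] at h4
    norm_num at h4
  · rintro ⟨a, ha, hev⟩ η hη
    obtain ⟨c, hc, n₀, hn⟩ := above_prob ha hη
    refine ⟨c, hc, ?_⟩
    filter_upwards [hev, eventually_ge_atTop (max n₀ 3)] with n h1 h2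
    exact hn n (le_trans (le_max_left _ _) h2) (r n)
      ((scale_iff (le_trans (le_max_right _ _) h2) a (r n)).2 h1)

theorem result :
    (∀ r : ℕ → ℝ, (∀ n, 0 ≤ r n) →
      Tendsto (fun n : ℕ => (n : ℝ) ^ ((1 : ℝ) / 4) * r n / Real.sqrt (Real.log n)) atTop
        (nhds 0) →
      ∀ ε : ℝ, 0 < ε → Tendsto (fun n => probGiant (PMF.pure 1) n (r n) ε) atTop (nhds 0)) ∧
    (∀ r : ℕ → ℝ, LinearComponent (PMF.pure 1) r ↔
      ∃ a : ℝ, 0 < a ∧ ∀ᶠ n : ℕ in atTop,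
        a ≤ (n : ℝ) ^ ((1 : ℝ) / 4) * r n / Real.sqrt (Real.log n)) ∧
    (∀ r r' : ℕ → ℝ, (∀ n, r n ≤ r' n) → LinearComponent (PMF.pure 1) r →
      LinearComponent (PMF.pure 1) r') := by
  refine ⟨fun r hr0 hr ε hε => no_giant r hr0 hr ε hε, linear_iff, fun r r' hrr h => ?_⟩
  obtain ⟨a, ha, hev⟩ := (linear_iff r).1 h
  refine (linear_iff r').2 ⟨a, ha, ?_⟩
  filter_upwards [hev] with n hn
  refine hn.trans (div_le_div_of_nonneg_right ?_ (Real.sqrt_nonneg _))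
  exact mul_le_mul_of_nonneg_left (hrr n) (Real.rpow_nonneg (Nat.cast_nonneg n) _)

end Pool.Agent.Results.MP_ea42c6_pr.OnePickThreshold
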